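import Mathlib

/-! Upper bounds of Mertens type. -/

set_option autoImplicit false

open Finset

namespace Pool.Agent.Lib.MP_9c5702_nt

theorem sum_log_div_le (N : ℕ) (hN : 1 ≤ N) :
    ∑ p ∈ Ioc 0 N with p.Prime, Real.log p / p ≤ Real.log N + 2 := by
  have h0 : (0 : ℝ) < N := by exact_mod_cast hN
  have h1 : Real.log N.factorial =
      ∑ p ∈ Ioc 0 N with p.Prime, (padicValNat p N.factorial : ℝ) * Real.log p := by
    rw [Real.log_nat_eq_sum_factorization, Finsupp.sum, Nat.support_factorization]
    refine sum_congr ?_ fun p hp => ?_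
    · ext p
      simp only [Nat.mem_primeFactors, mem_filter, mem_Ioc]
      constructor
      · rintro ⟨h1, h2, -⟩
        exact ⟨⟨h1.pos, h1.dvd_factorial.1 h2⟩, h1⟩
      · rintro ⟨⟨-, h2⟩, h1⟩
        exact ⟨h1, h1.dvd_factorial.2 h2, N.factorial_ne_zero⟩
    · rw [Nat.factorization_def _ (mem_filter.1 hp).2]
  have h2 : ∀ p ∈ (Ioc 0 N).filter Nat.Prime, N * (Real.log p / p) ≤
      (padicValNat p N.factorial : ℝ) * Real.log p + Real.log p := by
    intro p hp
    have hp' := (mem_filter.1 hp).2
    have := Fact.mk hp'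
    have a0 : N / p ≤ padicValNat p N.factorial := by
      rw [padicValNat_factorial (b := Nat.log p N + 2) (by omega)]
      simpa using single_le_sum (f := fun i => N / p ^ i) (s := Ico 1 (Nat.log p N + 2))
        (fun _ _ => Nat.zero_le _) (a := 1) (by simp)
    have a1 : ((N / p : ℕ) : ℝ) ≤ padicValNat p N.factorial := by exact_mod_cast a0
    have a3 : (N : ℝ) < (N / p : ℕ) * p + p := by exact_mod_cast Nat.lt_div_mul_add hp'.pos
    have a4 : (0 : ℝ) < p := by exact_mod_cast hp'.pos
    have a5 : (N : ℝ) / p ≤ padicValNat p N.factorial + 1 := by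
      rw [div_le_iff₀ a4]
      nlinarith
    calc N * (Real.log p / p) = N / p * Real.log p := by ring
      _ ≤ (padicValNat p N.factorial + 1) * Real.log p :=
        mul_le_mul_of_nonneg_right a5 (Real.log_natCast_nonneg p)
      _ = _ := by ring
  have h3 := sum_le_sum h2
  rw [← mul_sum, sum_add_distrib, ← h1] at h3
  have h4 : Real.log N.factorial ≤ N * Real.log N := by
    rw [← Real.log_pow]
    exact Real.log_le_log (by positivity) (by exact_mod_cast Nat.factorial_le_pow N)
  have h5 := Chebyshev.theta_le_log4_mul_x (x := N) h0.le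
  rw [Chebyshev.theta, Nat.floor_natCast] at h5
  have h6 : Real.log 4 ≤ 2 := by
    rw [show (4 : ℝ) = 2 ^ 2 by norm_num, Real.log_pow]
    have := Real.log_two_lt_d9
    push_cast
    linarith
  refine le_of_mul_le_mul_left ?_ h0
  nlinarith

theorem sum_inv_le (N : ℕ) (hN : 2 ≤ N) :
    ∑ p ∈ Ioc 0 N with p.Prime, 1 / (p : ℝ) ≤ Real.log (Real.log N) + 5 := by
  have key : ∑ p ∈ Ioc 0 N with p.Prime, 1 / (p : ℝ) -
      (∑ p ∈ Ioc 0 N with p.Prime, Real.log p / p) / Real.log N ≤
      Real.log (Real.log N) - 2 / Real.log N + 4 := by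
    induction N, hN using Nat.le_induction with
    | base =>
      have h1 := Real.log_two_gt_d9
      have h2 : (Ioc 0 2).filter Nat.Prime = {2} := by decide
      have h3 : 2 / Real.log 2 ≤ 3 := by
        rw [div_le_iff₀ (by linarith)]
        linarith
      have h4 := Real.one_sub_inv_le_log_of_pos (x := Real.log 2) (by linarith)
      have h5 : 2 / Real.log 2 = 2 * (Real.log 2)⁻¹ := div_eq_mul_inv _ _
      simp only [h2, sum_singleton, Nat.cast_ofNat]
      rw [div_right_comm, div_self (by linarith)]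
      linarith
    | succ N hN ih =>
      have h0 : (1 : ℝ) < N := by exact_mod_cast hN
      have hL : 0 < Real.log N := Real.log_pos h0
      have hL' : Real.log N ≤ Real.log (N + 1 : ℕ) :=
        Real.log_le_log (by linarith) (by push_cast; linarith)
      have hA := sum_log_div_le N (by omega)
      set L := Real.log N
      set L' := Real.log (N + 1 : ℕ) with hL'd
      have hp : 0 < L' := hL.trans_le hL'
      set A := ∑ p ∈ Ioc 0 N with p.Prime, Real.log p / p
      set S := ∑ p ∈ Ioc 0 N with p.Prime, 1 / (p : ℝ)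
      have h1 : ∑ p ∈ Ioc 0 (N + 1) with p.Prime, 1 / (p : ℝ) -
          (∑ p ∈ Ioc 0 (N + 1) with p.Prime, Real.log p / p) / L' = S - A / L' := by
        rw [sum_filter, sum_filter, sum_Ioc_succ_top (Nat.zero_le N),
          sum_Ioc_succ_top (Nat.zero_le N), ← sum_filter, ← sum_filter]
        split_ifs
        · rw [← hL'd]
          field_simp
          ring
        · simp [S, A]
      rw [h1]
      have h2 : 0 ≤ 1 / L - 1 / L' := sub_nonneg.2 (one_div_le_one_div_of_le hL hL')
      have h3 := mul_le_mul_of_nonneg_right hA h2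
      have h4 := Real.log_le_sub_one_of_pos (div_pos hL hp)
      rw [Real.log_div hL.ne' hp.ne'] at h4
      have h5 : (L + 2) * (1 / L - 1 / L') = 1 - L / L' + 2 / L - 2 / L' := by
        field_simp
        ring
      have h6 : A * (1 / L - 1 / L') = A / L - A / L' := by ring
      linarith
  have hL : 0 < Real.log N := Real.log_pos (by exact_mod_cast hN)
  have h1 := div_le_div_of_nonneg_right (sum_log_div_le N (by omega)) hL.le
  rw [add_div, div_self hL.ne'] at h1
  linarith

theorem prod_le_loglog (n : ℕ) (hn : 16 ≤ n) (T : Finset ℕ) (hT : T ⊆ n.primeFactors) :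
    ∏ p ∈ T, (1 + 1 / (p : ℝ)) ≤ Real.exp 7 * Real.log (Real.log n) := by
  have h2 := Real.log_two_gt_d9
  have hL : 2 ≤ Real.log n := by
    have h : Real.log (2 ^ 4) ≤ Real.log n :=
      Real.log_le_log (by norm_num) (by exact_mod_cast hn)
    rw [Real.log_pow] at h
    push_cast at h
    linarith
  set N := ⌊Real.log n⌋₊ with hN
  have hN2 : 2 ≤ N := Nat.le_floor (by exact_mod_cast hL)
  have hc : (T.card : ℝ) ≤ 2 * Real.log n := by
    have h3 : 2 ^ T.card ≤ n := by
      refine le_trans ?_ (Nat.le_of_dvd (by omega) (Nat.prod_primeFactors_dvd n))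
      refine le_trans (pow_card_le_prod T (fun p => p) 2
        fun p hp => (Nat.prime_of_mem_primeFactors (hT hp)).two_le) ?_
      exact prod_le_prod_of_subset_of_one_le' hT
        fun p hp _ => (Nat.prime_of_mem_primeFactors hp).one_le
    have h4 : Real.log (2 ^ T.card) ≤ Real.log n :=
      Real.log_le_log (by positivity) (by exact_mod_cast h3)
    rw [Real.log_pow] at h4
    nlinarith [(Nat.cast_nonneg T.card : (0 : ℝ) ≤ T.card)]
  have h5 : ∑ p ∈ T, 1 / (p : ℝ) ≤ Real.log (Real.log N) + 7 := by
    rw [← sum_filter_add_sum_filter_not T (· ≤ N)]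
    have a1 : ∑ p ∈ T with p ≤ N, 1 / (p : ℝ) ≤ ∑ p ∈ Ioc 0 N with p.Prime, 1 / (p : ℝ) := by
      refine sum_le_sum_of_subset_of_nonneg (fun p hp => ?_) fun _ _ _ => by positivity
      have := Nat.prime_of_mem_primeFactors (hT (mem_filter.1 hp).1)
      exact mem_filter.2 ⟨mem_Ioc.2 ⟨this.pos, (mem_filter.1 hp).2⟩, this⟩
    have a2 : ∑ p ∈ T with ¬ p ≤ N, 1 / (p : ℝ) ≤ 2 := by
      refine (sum_le_card_nsmul _ _ (1 / Real.log n) fun p hp => ?_).trans ?_
      · refine one_div_le_one_div_of_le (by linarith) ?_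
        exact (Nat.floor_lt (by linarith)).1 (not_le.1 (mem_filter.1 hp).2) |>.le
      · rw [nsmul_eq_mul, mul_one_div, div_le_iff₀ (by linarith)]
        exact le_trans (by exact_mod_cast card_filter_le _ _) hc
    linarith [sum_inv_le N hN2]
  have h6 : 0 < Real.log N := Real.log_pos (by exact_mod_cast hN2)
  calc ∏ p ∈ T, (1 + 1 / (p : ℝ)) ≤ ∏ p ∈ T, Real.exp (1 / (p : ℝ)) :=
        prod_le_prod (fun _ _ => by positivity) fun p _ => by
          rw [add_comm]; exact Real.add_one_le_exp _
    _ ≤ Real.exp (Real.log (Real.log N) + 7) := by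
        rw [← Real.exp_sum]
        exact Real.exp_le_exp.2 h5
    _ = Real.exp 7 * Real.log N := by rw [Real.exp_add, Real.exp_log h6, mul_comm]
    _ ≤ _ := by
        gcongr
        exact Nat.floor_le (by linarith)

end Pool.Agent.Lib.MP_9c5702_nt
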