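import Mathlib

/-! Representations of an integer as a sum of three positive cubes. -/

set_option autoImplicit false

namespace Pool.Agent.Lib.MP_9c5702_nt

/-- number of ordered triples of positive integers whose cubes sum to `n` -/
def r33 (n : ℕ) : ℕ :=
  (((Finset.Icc 1 n) ×ˢ (Finset.Icc 1 n) ×ˢ (Finset.Icc 1 n)).filter
    (fun p : ℕ × ℕ × ℕ => p.1 ^ 3 + p.2.1 ^ 3 + p.2.2 ^ 3 = n)).card

end Pool.Agent.Lib.MP_9c5702_nt
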