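import Pool.Agent.Lib.MP_9c5702_nt.Defs

-- part Pool.Agent.Lib.MP_9c5702_nt.Roots
section

/-! Cube roots modulo `d` and the reduction of `r33` to their mean value. -/

set_option autoImplicit false

open Finset

namespace Pool.Agent.Lib.MP_9c5702_nt

/-- number of cube roots of `n` modulo `d` -/
noncomputable def rho (n d : ℕ) : ℕ := Nat.card {z : ZMod d // z ^ 3 = (n : ZMod d)}

theorem rho_one (n : ℕ) : rho n 1 = 1 := by
  unfold rho
  rw [Nat.card_eq_one_iff_unique]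
  exact ⟨inferInstance, ⟨⟨0, Subsingleton.elim _ _⟩⟩⟩

theorem rho_mul (n : ℕ) {a b : ℕ} (h : a.Coprime b) : rho n (a * b) = rho n a * rho n b := by
  unfold rho
  rw [← Nat.card_prod]
  refine Nat.card_congr (((ZMod.chineseRemainder h).toEquiv.subtypeEquiv fun z => ?_).trans
    (Equiv.subtypeProdEquivProd (p := fun z : ZMod a => z ^ 3 = (n : ZMod a))
      (q := fun z : ZMod b => z ^ 3 = (n : ZMod b))))
  rw [← (ZMod.chineseRemainder h).injective.eq_iff, map_pow, map_natCast, Prod.ext_iff]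
  simp

theorem card_sorted_le (n D : ℕ) (T : Finset (ℕ × ℕ × ℕ)) (x y z : ℕ × ℕ × ℕ → ℕ)
    (hinj : ∀ p q, x p = x q → y p = y q → z p = z q → p = q)
    (hT : ∀ p ∈ T, x p ^ 3 + y p ^ 3 + z p ^ 3 = n ∧ 1 ≤ z p ∧ z p ≤ y p ∧ y p ≤ x p ∧
      x p + y p ≤ D) : T.card ≤ ∑ d ∈ Ioc 0 D, rho n d := by
  rw [card_eq_sum_card_fiberwise (f := fun p => x p + y p) (t := Ioc 0 D)
    (fun p hp => by have := hT p hp; simp only [coe_Ioc, Set.mem_Ioc]; omega)]
  refine sum_le_sum fun d hd => ?_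
  have : NeZero d := ⟨(mem_Ioc.1 hd).1.ne'⟩
  rw [← Nat.card_eq_finsetCard]
  have key : ∀ p ∈ T.filter (fun p => x p + y p = d), ((z p : ℕ) : ZMod d) ^ 3 = (n : ZMod d) := by
    intro p hp
    obtain ⟨h1, h2⟩ := mem_filter.1 hp
    have h3 : ((x p : ℕ) : ZMod d) + (y p : ℕ) = 0 := by
      rw [← Nat.cast_add, h2, ZMod.natCast_self]
    rw [← (hT p h1).1]
    push_cast
    linear_combination (-(((x p : ℕ) : ZMod d) ^ 2 - (x p : ℕ) * (y p : ℕ) + (y p : ℕ) ^ 2)) * h3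
  refine Nat.card_le_card_of_injective (fun p => ⟨(z p.1 : ZMod d), key p.1 p.2⟩) ?_
  rintro ⟨p, hp⟩ ⟨q, hq⟩ h
  obtain ⟨h1, h2⟩ := mem_filter.1 hp
  obtain ⟨h3, h4⟩ := mem_filter.1 hq
  obtain ⟨a1, a2, a3, a4, -⟩ := hT p h1
  obtain ⟨b1, b2, b3, b4, -⟩ := hT q h3
  have hz : z p = z q := by
    have h5 : ((z p : ℕ) : ZMod d) = (z q : ℕ) := congrArg Subtype.val h
    rw [ZMod.natCast_eq_natCast_iff'] at h5
    rwa [Nat.mod_eq_of_lt (by omega), Nat.mod_eq_of_lt (by omega)] at h5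
  have hx : x p = x q := by
    have h6 : (x p : ℤ) ^ 3 + (y p : ℤ) ^ 3 = (x q : ℤ) ^ 3 + (y q : ℤ) ^ 3 := by
      have : x p ^ 3 + y p ^ 3 = x q ^ 3 + y q ^ 3 := by rw [hz] at a1; omega
      exact_mod_cast this
    have h7 : (y p : ℤ) = d - x p := by omega
    have h8 : (y q : ℤ) = d - x q := by omega
    rw [h7, h8] at h6
    have h9 : (3 * (d : ℤ)) * (((x p : ℤ) - x q) * (x p + x q - d)) = 0 := by
      linear_combination h6
    rcases mul_eq_zero.1 h9 with h | h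
    · omega
    · rcases mul_eq_zero.1 h with h | h <;> omega
  exact Subtype.ext (hinj p q hx (by omega) hz)

theorem r33_le (n D : ℕ) (hD : ∀ x : ℕ, x ^ 3 ≤ n → 2 * x ≤ D) :
    r33 n ≤ 6 * ∑ d ∈ Ioc 0 D, rho n d := by
  set S := ((Icc 1 n) ×ˢ (Icc 1 n) ×ˢ (Icc 1 n)).filter
    (fun p : ℕ × ℕ × ℕ => p.1 ^ 3 + p.2.1 ^ 3 + p.2.2 ^ 3 = n) with hS
  have key : ∀ x y z : ℕ × ℕ × ℕ → ℕ, (∀ p q, x p = x q → y p = y q → z p = z q → p = q) →
      (∀ p, x p ^ 3 + y p ^ 3 + z p ^ 3 = p.1 ^ 3 + p.2.1 ^ 3 + p.2.2 ^ 3) →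
      (∀ p : ℕ × ℕ × ℕ, 1 ≤ p.1 → 1 ≤ p.2.1 → 1 ≤ p.2.2 → 1 ≤ z p) →
      (S.filter fun p => z p ≤ y p ∧ y p ≤ x p).card ≤ ∑ d ∈ Ioc 0 D, rho n d := by
    intro x y z h1 h2 h3
    refine card_sorted_le n D _ x y z h1 fun p hp => ?_
    simp only [hS, mem_filter, mem_product, mem_Icc] at hp
    have h4 := h2 p
    have h5 := hD (x p) (by omega)
    exact ⟨by omega, h3 p hp.1.1.1.1 hp.1.1.2.1.1 hp.1.1.2.2.1, hp.2.1, hp.2.2, by omega⟩
  have e1 := key (fun p => p.1) (fun p => p.2.1) (fun p => p.2.2)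
    (fun p q a b c => Prod.ext a (Prod.ext b c)) (fun p => by ring) (fun p a b c => c)
  have e2 := key (fun p => p.1) (fun p => p.2.2) (fun p => p.2.1)
    (fun p q a b c => Prod.ext a (Prod.ext c b)) (fun p => by ring) (fun p a b c => b)
  have e3 := key (fun p => p.2.1) (fun p => p.1) (fun p => p.2.2)
    (fun p q a b c => Prod.ext b (Prod.ext a c)) (fun p => by ring) (fun p a b c => c)
  have e4 := key (fun p => p.2.1) (fun p => p.2.2) (fun p => p.1)
    (fun p q a b c => Prod.ext c (Prod.ext a b)) (fun p => by ring) (fun p a b c => a)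
  have e5 := key (fun p => p.2.2) (fun p => p.1) (fun p => p.2.1)
    (fun p q a b c => Prod.ext b (Prod.ext c a)) (fun p => by ring) (fun p a b c => b)
  have e6 := key (fun p => p.2.2) (fun p => p.2.1) (fun p => p.1)
    (fun p q a b c => Prod.ext c (Prod.ext b a)) (fun p => by ring) (fun p a b c => a)
  have hsub : S ⊆ (S.filter fun p => p.2.2 ≤ p.2.1 ∧ p.2.1 ≤ p.1) ∪
      ((S.filter fun p => p.2.1 ≤ p.2.2 ∧ p.2.2 ≤ p.1) ∪
      ((S.filter fun p => p.2.2 ≤ p.1 ∧ p.1 ≤ p.2.1) ∪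
      ((S.filter fun p => p.1 ≤ p.2.2 ∧ p.2.2 ≤ p.2.1) ∪
      ((S.filter fun p => p.2.1 ≤ p.1 ∧ p.1 ≤ p.2.2) ∪
      (S.filter fun p => p.1 ≤ p.2.1 ∧ p.2.1 ≤ p.2.2))))) := by
    intro p hp
    simp only [mem_union, mem_filter, hp, true_and]
    omega
  have h := (card_le_card hsub).trans ((card_union_le _ _).trans (Nat.add_le_add_left
    ((card_union_le _ _).trans (Nat.add_le_add_left ((card_union_le _ _).trans
    (Nat.add_le_add_left ((card_union_le _ _).trans (Nat.add_le_add_left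
    (card_union_le _ _) _)) _)) _)) _))
  change S.card ≤ _
  omega

/-! ### Prime powers -/

theorem rho_le_units {p k n : ℕ} (hp : p.Prime) (hn : ¬ p ∣ n) :
    rho n (p ^ k) ≤ Nat.card {u : (ZMod (p ^ k))ˣ // u ^ 3 = 1} := by
  have : NeZero (p ^ k) := ⟨pow_ne_zero _ hp.ne_zero⟩
  have hu : IsUnit (n : ZMod (p ^ k)) :=
    (ZMod.isUnit_iff_coprime _ _).2 ((hp.coprime_iff_not_dvd.2 hn).symm.pow_right k)
  unfold rho
  rcases isEmpty_or_nonempty {z : ZMod (p ^ k) // z ^ 3 = (n : ZMod (p ^ k))} with h | ⟨⟨z₀⟩⟩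
  · simp
  have hz : ∀ z : {z : ZMod (p ^ k) // z ^ 3 = (n : ZMod (p ^ k))}, IsUnit z.1 := fun z =>
    (isUnit_pow_iff (by norm_num : 3 ≠ 0)).1 (by rw [z.2]; exact hu)
  refine Nat.card_le_card_of_injective (fun z => ⟨(hz z).unit * (hz z₀).unit⁻¹, ?_⟩) ?_
  · rw [mul_pow, inv_pow, mul_inv_eq_one]
    ext
    simp [z.2, z₀.2]
  · intro z z' h
    have h1 : (hz z).unit = (hz z').unit := mul_right_cancel (congrArg Subtype.val h)
    exact Subtype.ext (by simpa using congrArg Units.val h1)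

theorem card_cube_one_of_coprime {G : Type*} [Group G] [Finite G] (h : (Nat.card G).Coprime 3) :
    Nat.card {u : G // u ^ 3 = 1} ≤ 1 := by
  rw [Finite.card_le_one_iff_subsingleton]
  refine ⟨fun a b => Subtype.ext (h.pow_left_bijective.1 ?_)⟩
  simp only [a.2, b.2]

theorem rho_le_one {p k n : ℕ} (hp : p.Prime) (hn : ¬ p ∣ n) (h3 : p % 3 = 2) :
    rho n (p ^ k) ≤ 1 := by
  have : NeZero (p ^ k) := ⟨pow_ne_zero _ hp.ne_zero⟩
  refine (rho_le_units hp hn).trans (card_cube_one_of_coprime ?_)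
  rw [Nat.card_eq_fintype_card, ZMod.card_units_eq_totient]
  rcases k with _ | k
  · simp
  rw [Nat.totient_prime_pow_succ hp]
  refine Nat.Coprime.mul_left (Nat.Coprime.pow_left _ ?_) ?_
  · exact (Nat.prime_three.coprime_iff_not_dvd.2 (by omega)).symm
  · exact (Nat.prime_three.coprime_iff_not_dvd.2 (by omega)).symm

theorem rho_le_three {p k n : ℕ} (hp : p.Prime) (hn : ¬ p ∣ n) : rho n (p ^ k) ≤ 3 := by
  classical
  by_cases h2 : p = 2
  · exact (rho_le_one hp hn (by omega)).trans (by norm_num)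
  have : NeZero (p ^ k) := ⟨pow_ne_zero _ hp.ne_zero⟩
  have := ZMod.isCyclic_units_of_prime_pow p hp h2 k
  refine (rho_le_units hp hn).trans ?_
  rw [Nat.card_eq_fintype_card, Fintype.card_subtype]
  exact IsCyclic.card_pow_eq_one_le (by norm_num)

theorem rho_eq_card (n d : ℕ) (hd : d ≠ 0) :
    rho n d = ((range d).filter fun z => z ^ 3 ≡ n [MOD d]).card := by
  have : NeZero d := ⟨hd⟩
  unfold rho
  rw [← Nat.card_eq_finsetCard]
  refine Nat.card_congr ⟨fun z => ⟨z.1.val, ?_⟩, fun z => ⟨(z.1 : ZMod d), ?_⟩, fun z => ?_,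
    fun z => ?_⟩
  · refine mem_filter.2 ⟨mem_range.2 (ZMod.val_lt _), ?_⟩
    rw [← ZMod.natCast_eq_natCast_iff]
    simpa using z.2
  · have := (ZMod.natCast_eq_natCast_iff _ _ _).2 (mem_filter.1 z.2).2
    simpa using this
  · simp
  · exact Subtype.ext (ZMod.val_cast_of_lt (mem_range.1 (mem_filter.1 z.2).1))

theorem dvd_of_root {p k n z : ℕ} (hp : p.Prime) (hn : p ∣ n)
    (h : z ^ 3 ≡ n [MOD p ^ (k + 1)]) : p ∣ z :=
  hp.dvd_of_dvd_pow (((h.of_dvd (dvd_pow_self p k.succ_ne_zero)).dvd_iff dvd_rfl).2 hn)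

theorem rho_le_pow {p k n : ℕ} (hp : p.Prime) (hn : p ∣ n) : rho n (p ^ (k + 1)) ≤ p ^ k := by
  rw [rho_eq_card _ _ (pow_ne_zero _ hp.ne_zero)]
  refine le_trans (card_le_card_of_injOn (t := range (p ^ k)) (fun z => z / p) ?_ ?_) (by simp)
  · intro z hz
    have := mem_range.1 (mem_filter.1 hz).1
    simp only [coe_range, Set.mem_Iio]
    rw [Nat.div_lt_iff_lt_mul hp.pos, ← pow_succ]
    exact this
  · intro z hz z' hz' h
    rw [← Nat.div_mul_cancel (dvd_of_root hp hn (mem_filter.1 hz).2),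
      ← Nat.div_mul_cancel (dvd_of_root hp hn (mem_filter.1 hz').2)]
    exact congrArg (· * p) h

theorem rho_eq_zero {p k n j : ℕ} (hp : p.Prime) (hn : p ∣ n) (hj : j ≤ 3) (hk : j ≤ k + 1)
    (hn' : ¬ p ^ j ∣ n) : rho n (p ^ (k + 1)) = 0 := by
  rw [rho_eq_card _ _ (pow_ne_zero _ hp.ne_zero), card_eq_zero, filter_eq_empty_iff]
  intro z _ h
  refine hn' (((h.of_dvd (pow_dvd_pow p hk)).dvd_iff dvd_rfl).1 ?_)
  exact (pow_dvd_pow p hj).trans (pow_dvd_pow_of_dvd (dvd_of_root hp hn h) 3)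

theorem rho_step {p k n : ℕ} (hp : p.Prime) :
    rho (p ^ 3 * n) (p ^ (k + 3)) ≤ p ^ 2 * rho n (p ^ k) := by
  have hk : 0 < p ^ k := pow_pos hp.pos k
  rw [rho_eq_card _ _ (pow_ne_zero _ hp.ne_zero), rho_eq_card _ _ hk.ne']
  have hd : p ∣ p ^ 3 * n := (dvd_pow_self p (by norm_num)).mul_right n
  refine le_trans (card_le_card_of_injOn (t := range (p ^ 2) ×ˢ
    ((range (p ^ k)).filter fun z => z ^ 3 ≡ n [MOD p ^ k]))
    (fun z => (z / p / p ^ k, z / p % p ^ k)) ?_ ?_) (by simp)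
  · intro z hz
    obtain ⟨h1, h2⟩ := mem_filter.1 hz
    obtain ⟨y, rfl⟩ := dvd_of_root (k := k + 2) hp hd h2
    simp only [coe_product, coe_range, coe_filter, Set.mem_prod, Set.mem_Iio, Set.mem_ofPred_eq,
      mem_range, Nat.mul_div_cancel_left _ hp.pos]
    refine ⟨?_, Nat.mod_lt _ hk, ((Nat.mod_modEq _ _).pow 3).trans ?_⟩
    · rw [Nat.div_lt_iff_lt_mul hk]
      refine Nat.lt_of_mul_lt_mul_left (a := p) ((mem_range.1 h1).trans_eq (by ring))
    · refine Nat.ModEq.mul_left_cancel' (c := p ^ 3) (pow_ne_zero _ hp.ne_zero) ?_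
      rw [← mul_pow, ← pow_add, add_comm 3 k]
      exact h2
  · intro z hz z' hz' h
    obtain ⟨h1, h2⟩ := Prod.ext_iff.1 h
    simp only at h1 h2
    rw [← Nat.div_mul_cancel (dvd_of_root (k := k + 2) hp hd (mem_filter.1 hz).2),
      ← Nat.div_mul_cancel (dvd_of_root (k := k + 2) hp hd (mem_filter.1 hz').2),
      ← Nat.div_add_mod (z / p) (p ^ k), ← Nat.div_add_mod (z' / p) (p ^ k), h1, h2]

/-- uniform bound for the number of cube roots modulo a prime power -/
theorem rho_le (p : ℕ) (hp : p.Prime) (k : ℕ) : ∀ n, rho n (p ^ k) ≤ 3 * p ^ (2 * k / 3) := by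
  induction k using Nat.strong_induction_on with
  | _ k ih =>
    intro n
    have h1 : 1 ≤ p ^ (2 * k / 3) := Nat.one_le_pow _ _ hp.pos
    by_cases hn : p ∣ n
    · match k, ih with
      | 0, _ => simp [rho_one]
      | 1, _ => exact (rho_le_pow (k := 0) hp hn).trans (by simp)
      | 2, _ => exact (rho_le_pow (k := 1) hp hn).trans (by simp; omega)
      | k + 3, ih =>
        by_cases h3 : p ^ 3 ∣ n
        · obtain ⟨m, rfl⟩ := h3
          refine (rho_step hp).trans ((Nat.mul_le_mul_left _ (ih k (by omega) m)).trans_eq ?_)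
          rw [show 2 * (k + 3) / 3 = 2 * k / 3 + 2 by omega]
          ring
        · rw [rho_eq_zero (k := k + 2) hp hn le_rfl (by omega) h3]
          exact Nat.zero_le _
    · exact (rho_le_three hp hn).trans (by omega)

end Pool.Agent.Lib.MP_9c5702_nt
end

-- part Pool.Agent.Lib.MP_9c5702_nt.Mean
section

/-! Mean value of the number of cube roots of `n` modulo `d`. -/

set_option autoImplicit false

open Finset ArithmeticFunction
open scoped ArithmeticFunction.zeta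

noncomputable section

namespace Pool.Agent.Lib.MP_9c5702_nt

/-- the nontrivial character modulo three -/
def chi : ArithmeticFunction ℝ :=
  ⟨fun n => if n % 3 = 1 then 1 else if n % 3 = 2 then -1 else 0, by simp⟩

theorem chi_apply (n : ℕ) : chi n = if n % 3 = 1 then 1 else if n % 3 = 2 then -1 else 0 := rfl

theorem chi_mul (a b : ℕ) : chi (a * b) = chi a * chi b := by
  simp only [chi_apply, Nat.mul_mod a b 3]
  have ha : a % 3 = 0 ∨ a % 3 = 1 ∨ a % 3 = 2 := by omega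
  have hb : b % 3 = 0 ∨ b % 3 = 1 ∨ b % 3 = 2 := by omega
  rcases ha with ha | ha | ha <;> rcases hb with hb | hb | hb <;> simp [ha, hb]

theorem chi_pow (a k : ℕ) : chi (a ^ k) = chi a ^ k := by
  induction k with
  | zero => simp [chi_apply]
  | succ k ih => rw [pow_succ, chi_mul, ih, pow_succ]

theorem chi_mult : chi.IsMultiplicative := ⟨by simp [chi_apply], fun _ => chi_mul _ _⟩

/-- number of ideals of given norm in the Eisenstein integers -/
def RR : ArithmeticFunction ℝ := chi * (ζ : ArithmeticFunction ℝ)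

/-- the majorant of the number of cube roots -/
def FF : ArithmeticFunction ℝ := RR * (ζ : ArithmeticFunction ℝ)

theorem RR_mult : RR.IsMultiplicative := chi_mult.mul isMultiplicative_zeta.natCast

theorem FF_mult : FF.IsMultiplicative := RR_mult.mul isMultiplicative_zeta.natCast

theorem RR_pow {p : ℕ} (hp : p.Prime) (k : ℕ) : RR (p ^ k) = ∑ i ∈ range (k + 1), chi p ^ i := by
  rw [RR, coe_mul_zeta_apply, Nat.sum_divisors_prime_pow hp]
  simp only [chi_pow]

theorem FF_pow {p : ℕ} (hp : p.Prime) (k : ℕ) : FF (p ^ k) = ∑ i ∈ range (k + 1), RR (p ^ i) := by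
  rw [FF, coe_mul_zeta_apply, Nat.sum_divisors_prime_pow hp]

theorem RR_nonneg (d : ℕ) : 0 ≤ RR d := by
  induction d using Nat.recOnPosPrimePosCoprime with
  | prime_pow p k hp _ =>
    rw [RR_pow hp, chi_apply]
    split_ifs
    · positivity
    · rw [neg_one_geom_sum]
      split_ifs <;> norm_num
    · positivity
  | zero => simp
  | one => rw [RR_mult.map_one]; norm_num
  | coprime a b _ _ h ha hb => rw [RR_mult.map_mul_of_coprime h]; positivity

theorem FF_nonneg (d : ℕ) : 0 ≤ FF d := by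
  rw [FF, coe_mul_zeta_apply]
  exact sum_nonneg fun _ _ => RR_nonneg _

theorem le_FF {p : ℕ} (hp : p.Prime) (k : ℕ) : 2 + chi p ≤ FF (p ^ (k + 1)) := by
  rw [FF_pow hp]
  refine le_trans (le_of_eq ?_) (sum_le_sum_of_subset_of_nonneg
    (range_subset_range.2 (by omega : 2 ≤ k + 1 + 1)) fun _ _ _ => RR_nonneg _)
  simp only [sum_range_succ, RR_pow hp]
  simp
  ring

theorem one_le_FF {p : ℕ} (hp : p.Prime) (k : ℕ) : 1 ≤ FF (p ^ (k + 1)) := by
  refine le_trans ?_ (le_FF hp k)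
  rw [chi_apply]
  split_ifs <;> norm_num

theorem FF_three (k : ℕ) : FF (3 ^ k) = k + 1 := by
  rw [FF_pow Nat.prime_three]
  simp [RR_pow Nat.prime_three, chi_apply]

theorem rho_le_FF {p n : ℕ} (hp : p.Prime) (hn : ¬ p ∣ n) (k : ℕ) :
    (rho n (p ^ (k + 1)) : ℝ) ≤ FF (p ^ (k + 1)) := by
  have h3 : (rho n (p ^ (k + 1)) : ℝ) ≤ 3 := by exact_mod_cast rho_le_three hp hn
  have h : p % 3 = 0 ∨ p % 3 = 1 ∨ p % 3 = 2 := by omega
  rcases h with h | h | h
  · obtain rfl : p = 3 := ((Nat.prime_dvd_prime_iff_eq Nat.prime_three hp).1 (by omega)).symm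
    rw [FF_three]
    rcases k with _ | k
    · have h1 : rho n (3 ^ (0 + 1)) ≤ 1 := by
        refine (rho_le_units hp hn).trans (card_cube_one_of_coprime ?_)
        rw [Nat.card_eq_fintype_card, ZMod.card_units_eq_totient]
        decide
      have h2 : (rho n (3 ^ (0 + 1)) : ℝ) ≤ 1 := by exact_mod_cast h1
      exact h2.trans (by norm_num)
    · push_cast
      linarith [(Nat.cast_nonneg k : (0 : ℝ) ≤ k)]
  · refine h3.trans (le_trans ?_ (le_FF hp k))
    rw [chi_apply, if_pos h]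
    norm_num
  · refine le_trans ?_ (one_le_FF hp k)
    exact_mod_cast rho_le_one hp hn h

theorem sum_chi_div (N : ℕ) : ∑ a ∈ Ioc 0 N, chi a / a ≤
    1 - if N % 3 = 0 then 1 / ((N : ℝ) + 1) else if N % 3 = 2 then 1 / ((N : ℝ) + 2) else 0 := by
  induction N with
  | zero => simp
  | succ N ih =>
    rw [sum_Ioc_succ_top (Nat.zero_le N), chi_apply]
    have h : N % 3 = 0 ∨ N % 3 = 1 ∨ N % 3 = 2 := by omega
    have h0 : (0 : ℝ) ≤ N := Nat.cast_nonneg N
    rcases h with h | h | h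
    · rw [if_pos h] at ih
      rw [if_pos (by omega), if_neg (by omega), if_neg (by omega)]
      push_cast
      linarith
    · rw [if_neg (by omega), if_neg (by omega)] at ih
      rw [if_neg (by omega), if_pos (by omega), if_neg (by omega), if_pos (by omega)]
      push_cast
      have : 1 / ((N : ℝ) + 1 + 2) ≤ 1 / ((N : ℝ) + 1) :=
        one_div_le_one_div_of_le (by positivity) (by linarith)
      rw [neg_div]
      linarith
    · rw [if_neg (by omega), if_pos h] at ih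
      rw [if_neg (by omega), if_neg (by omega), if_pos (by omega)]
      push_cast
      rw [zero_div, add_zero, add_assoc, one_add_one_eq_two]
      exact ih

theorem sum_chi_div_le (N : ℕ) : ∑ a ∈ Ioc 0 N, chi a / a ≤ 1 := by
  refine (sum_chi_div N).trans (sub_le_self _ ?_)
  split_ifs <;> positivity

theorem sum_RR_div (N : ℕ) : ∑ m ∈ Ioc 0 N, RR m / m ≤ 1 + Real.log N := by
  let f : ArithmeticFunction ℝ := ⟨fun n => 1 / n, by simp⟩
  let g : ArithmeticFunction ℝ := ⟨fun n => chi n / n, by simp⟩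
  have h1 : ∀ m, RR m / m = (f * g) m := by
    intro m
    rw [RR, mul_comm chi, mul_apply, mul_apply, sum_div]
    refine sum_congr rfl fun x hx => ?_
    obtain ⟨h2, h3⟩ := Nat.mem_divisorsAntidiagonal.1 hx
    have h4 : x.1 ≠ 0 := fun h => h3 (by rw [← h2, h, zero_mul])
    simp only [f, g, coe_mk, natCoe_apply, zeta_apply, h4, if_false, ← h2]
    push_cast
    ring
  simp only [h1]
  rw [sum_Ioc_mul_eq_sum_sum]
  refine le_trans ?_ (harmonic_le_one_add_log N)
  rw [harmonic_eq_sum_Icc]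
  push_cast
  rw [← Icc_add_one_left_eq_Ioc]
  refine sum_le_sum fun b _ => ?_
  have : f b = (b : ℝ)⁻¹ := one_div _
  rw [this]
  exact mul_le_of_le_one_right (by positivity) (sum_chi_div_le _)

theorem sum_FF (N : ℕ) : ∑ m ∈ Ioc 0 N, FF m ≤ N * (1 + Real.log N) := by
  rw [FF, sum_Ioc_mul_zeta_eq_sum]
  refine le_trans ?_ (mul_le_mul_of_nonneg_left (sum_RR_div N) (Nat.cast_nonneg N))
  rw [mul_sum]
  refine sum_le_sum fun m _ => ?_
  calc RR m * ((N / m : ℕ) : ℝ) ≤ RR m * ((N : ℝ) / m) :=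
        mul_le_mul_of_nonneg_left Nat.cast_div_le (RR_nonneg m)
    _ = _ := by ring

open Classical in
/-- the correction at the primes whose square divides `n` -/
def hh (n : ℕ) : ArithmeticFunction ℝ :=
  ⟨fun d => if d ≠ 0 ∧ ∀ p, p.Prime → p ∣ d → p ^ 2 ∣ d ∧ p ^ 2 ∣ n then rho n d else 0, by simp⟩

open Classical in
theorem hh_apply (n d : ℕ) : hh n d =
    if d ≠ 0 ∧ ∀ p, p.Prime → p ∣ d → p ^ 2 ∣ d ∧ p ^ 2 ∣ n then (rho n d : ℝ) else 0 := rfl

theorem hh_nonneg (n d : ℕ) : 0 ≤ hh n d := by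
  rw [hh_apply]
  split_ifs <;> positivity

theorem hh_le (n d : ℕ) : hh n d ≤ rho n d := by
  rw [hh_apply]
  split_ifs
  · exact le_rfl
  · positivity

theorem hh_mult (n : ℕ) : (hh n).IsMultiplicative := by
  refine ⟨?_, fun {a b} h => ?_⟩
  · rw [hh_apply, if_pos ⟨one_ne_zero, fun p hp h => (hp.not_dvd_one h).elim⟩, rho_one]
    simp
  · have key : (a * b ≠ 0 ∧ ∀ p, p.Prime → p ∣ a * b → p ^ 2 ∣ a * b ∧ p ^ 2 ∣ n) ↔
        (a ≠ 0 ∧ ∀ p, p.Prime → p ∣ a → p ^ 2 ∣ a ∧ p ^ 2 ∣ n) ∧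
        (b ≠ 0 ∧ ∀ p, p.Prime → p ∣ b → p ^ 2 ∣ b ∧ p ^ 2 ∣ n) := by
      constructor
      · rintro ⟨h1, h2⟩
        refine ⟨⟨left_ne_zero_of_mul h1, fun p hp hd => ⟨?_, (h2 p hp (hd.mul_right b)).2⟩⟩,
          right_ne_zero_of_mul h1, fun p hp hd => ⟨?_, (h2 p hp (hd.mul_left a)).2⟩⟩
        · exact ((h.coprime_dvd_left hd).pow_left 2).dvd_of_dvd_mul_right
            (h2 p hp (hd.mul_right b)).1
        · exact ((h.symm.coprime_dvd_left hd).pow_left 2).dvd_of_dvd_mul_left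
            (h2 p hp (hd.mul_left a)).1
      · rintro ⟨⟨h1, h2⟩, h3, h4⟩
        refine ⟨mul_ne_zero h1 h3, fun p hp hd => ?_⟩
        rcases hp.dvd_mul.1 hd with hd | hd
        · exact ⟨(h2 p hp hd).1.mul_right b, (h2 p hp hd).2⟩
        · exact ⟨(h4 p hp hd).1.mul_left a, (h4 p hp hd).2⟩
    simp only [hh_apply, key, rho_mul n h]
    split_ifs <;> simp_all

theorem rho_le_conv (n d : ℕ) (hd : d ≠ 0) : (rho n d : ℝ) ≤ (hh n * FF) d := by
  have hm := (hh_mult n).mul FF_mult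
  induction d using Nat.recOnPosPrimePosCoprime with
  | prime_pow p k hp hk =>
    have hs : ∀ x ∈ (p ^ k).divisorsAntidiagonal, hh n x.1 * FF x.2 ≤ (hh n * FF) (p ^ k) :=
      fun x hx => by
        rw [mul_apply]
        exact single_le_sum (f := fun x : ℕ × ℕ => hh n x.1 * FF x.2)
          (fun _ _ => mul_nonneg (hh_nonneg _ _) (FF_nonneg _)) hx
    have h1 := hs (1, p ^ k) (by simp [hp.ne_zero])
    have h2 := hs (p ^ k, 1) (by simp [hp.ne_zero])
    simp only [(hh_mult n).map_one, FF_mult.map_one, one_mul, mul_one] at h1 h2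
    obtain ⟨k, rfl⟩ : ∃ j, k = j + 1 := ⟨k - 1, by omega⟩
    by_cases hn : p ∣ n
    · rcases k with _ | k
      · refine le_trans ?_ ((one_le_FF hp 0).trans h1)
        exact_mod_cast rho_le_pow (k := 0) hp hn
      · by_cases hn2 : p ^ 2 ∣ n
        · refine le_trans (le_of_eq ?_) h2
          rw [hh_apply, if_pos]
          refine ⟨hd, fun q hq h => ?_⟩
          obtain rfl := (Nat.prime_dvd_prime_iff_eq hq hp).1 (hq.dvd_of_dvd_pow h)
          exact ⟨pow_dvd_pow _ (by omega), hn2⟩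
        · rw [rho_eq_zero hp hn (j := 2) (by omega) (by omega) hn2, Nat.cast_zero]
          exact (FF_nonneg _).trans h1
    · exact (rho_le_FF hp hn k).trans h1
  | zero => exact (hd rfl).elim
  | one => rw [hm.map_one, rho_one]; simp
  | coprime a b ha hb h iha ihb =>
    rw [hm.map_mul_of_coprime h, rho_mul n h, Nat.cast_mul]
    exact mul_le_mul (iha (by omega)) (ihb (by omega)) (Nat.cast_nonneg _)
      ((Nat.cast_nonneg _).trans (iha (by omega)))

theorem sum_rho_le (n D : ℕ) : ∑ d ∈ Ioc 0 D, (rho n d : ℝ) ≤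
    D * (1 + Real.log D) * ∑ e ∈ Ioc 0 D, hh n e / e := by
  refine (sum_le_sum fun d hd => rho_le_conv n d (mem_Ioc.1 hd).1.ne').trans ?_
  rw [sum_Ioc_mul_eq_sum_sum, mul_sum]
  refine sum_le_sum fun e he => ?_
  have h1 : ((D / e : ℕ) : ℝ) * (1 + Real.log (D / e : ℕ)) ≤ D / e * (1 + Real.log D) := by
    refine mul_le_mul Nat.cast_div_le ?_ (by positivity) (by positivity)
    have h2 : 0 < D / e := Nat.div_pos (mem_Ioc.1 he).2 (mem_Ioc.1 he).1
    gcongr
    exact Nat.div_le_self _ _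
  calc hh n e * ∑ m ∈ Ioc 0 (D / e), FF m ≤ hh n e * (D / e * (1 + Real.log D)) :=
        mul_le_mul_of_nonneg_left ((sum_FF _).trans h1) (hh_nonneg _ _)
    _ = _ := by ring

theorem pow_bound {p : ℕ} (hp : 2 ≤ p) (j : ℕ) :
    (p : ℝ) ^ (2 * (j + 4) / 3) * p ^ 2 ≤ 2 * (4 / 5) ^ j * p ^ (j + 4) := by
  have h2 : (2 : ℝ) ≤ p := by exact_mod_cast hp
  induction j using Nat.strong_induction_on with
  | _ j ih =>
    match j, ih with
    | 0, _ => norm_num; nlinarith [pow_pos (by linarith : (0 : ℝ) < p) 4]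
    | 1, _ => norm_num; nlinarith [pow_pos (by linarith : (0 : ℝ) < p) 5]
    | 2, _ => norm_num; nlinarith [pow_pos (by linarith : (0 : ℝ) < p) 6]
    | j + 3, ih =>
      rw [show 2 * (j + 3 + 4) / 3 = 2 * (j + 4) / 3 + 2 by omega]
      have h3 : (p : ℝ) ^ 2 ≤ (4 / 5) ^ 3 * p ^ 3 := by nlinarith [sq_nonneg (p : ℝ)]
      calc _ = (p : ℝ) ^ (2 * (j + 4) / 3) * p ^ 2 * p ^ 2 := by ring
        _ ≤ 2 * (4 / 5) ^ j * p ^ (j + 4) * ((4 / 5) ^ 3 * p ^ 3) :=
          mul_le_mul (ih j (by omega)) h3 (by positivity) (by positivity)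
        _ = _ := by ring

theorem local_factor {p : ℕ} (hp : p.Prime) (n : ℕ) :
    Summable (fun k => hh n (p ^ k) / (p ^ k : ℕ)) ∧
      ∑' k, hh n (p ^ k) / (p ^ k : ℕ) ≤ (1 + 1 / (p : ℝ)) ^ 2 * Real.exp (30 * (1 / p ^ 2)) := by
  have h0 : (0 : ℝ) < p := by exact_mod_cast hp.pos
  have hb : ∀ j, hh n (p ^ (j + 4)) / (p ^ (j + 4) : ℕ) ≤ 6 / (p : ℝ) ^ 2 * (4 / 5) ^ j := by
    intro j
    have h1 : (rho n (p ^ (j + 4)) : ℝ) ≤ 3 * p ^ (2 * (j + 4) / 3) := by
      exact_mod_cast rho_le p hp (j + 4) n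
    have h2 := pow_bound hp.two_le j
    have h3 := hh_le n (p ^ (j + 4))
    push_cast
    rw [div_le_iff₀ (by positivity), div_mul_eq_mul_div, div_mul_eq_mul_div,
      le_div_iff₀ (by positivity)]
    nlinarith [pow_pos h0 2]
  have hg := (hasSum_geometric_of_lt_one (r := (4 / 5 : ℝ)) (by norm_num) (by norm_num)).mul_left
    (6 / (p : ℝ) ^ 2)
  have hs : Summable fun j => hh n (p ^ (j + 4)) / (p ^ (j + 4) : ℕ) :=
    .of_nonneg_of_le (fun j => div_nonneg (hh_nonneg _ _) (Nat.cast_nonneg _)) hb hg.summable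
  have hs' := (summable_nat_add_iff (f := fun k => hh n (p ^ k) / (p ^ k : ℕ)) 4).1 hs
  refine ⟨hs', ?_⟩
  rw [← hs'.sum_add_tsum_nat_add 4]
  have h1 := hasSum_le hb hs.hasSum hg
  have h2 : hh n (p ^ 1) = 0 := by
    rw [hh_apply, if_neg]
    rintro ⟨-, h⟩
    have := Nat.le_of_dvd (pow_pos hp.pos 1) (h p hp (by simp)).1
    have := (Nat.pow_le_pow_iff_right hp.one_lt).1 this
    omega
  have h3 : ∀ k, hh n (p ^ (k + 1)) / (p ^ (k + 1) : ℕ) ≤ 1 / p := by
    intro k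
    rw [div_le_div_iff₀ (by exact_mod_cast pow_pos hp.pos _) h0, hh_apply]
    split_ifs with h
    · have h4 := rho_le_pow (k := k) hp
        ((dvd_pow_self p two_ne_zero).trans (h.2 p hp (dvd_pow_self p k.succ_ne_zero)).2)
      have h5 : rho n (p ^ (k + 1)) * p ≤ 1 * p ^ (k + 1) := by
        rw [one_mul, pow_succ p k]
        exact Nat.mul_le_mul_right _ h4
      exact_mod_cast h5
    · rw [zero_mul]
      positivity
  have h4 := Real.add_one_le_exp (30 * (1 / (p : ℝ) ^ 2))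
  have h5 : (0 : ℝ) < 1 / p := by positivity
  have h6 : (0 : ℝ) < 1 / p ^ 2 := by positivity
  simp only [sum_range_succ, range_zero, sum_empty, h2, pow_zero, (hh_mult n).map_one]
  calc _ ≤ 1 + 2 * (1 / (p : ℝ)) + 30 * (1 / p ^ 2) := by
        have h7 := h3 1
        have h8 := h3 2
        norm_num at h1 h7 h8 ⊢
        rw [div_eq_mul_inv 6] at h1
        linarith
    _ ≤ (1 + 1 / (p : ℝ)) ^ 2 * (30 * (1 / p ^ 2) + 1) := by
        nlinarith [mul_pos h5 h6, mul_pos h5 h5, mul_pos (mul_pos h5 h5) h6]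
    _ ≤ _ := by gcongr

theorem sum_hh_le : ∃ C : ℝ, 0 < C ∧ ∀ n D : ℕ, n ≠ 0 → ∑ e ∈ Ioc 0 D, hh n e / e ≤
    C * ∏ p ∈ n.primeFactors with p ^ 2 ∣ n, (1 + 1 / (p : ℝ)) ^ 2 := by
  have hz : Summable fun m : ℕ => 1 / (m : ℝ) ^ 2 := Real.summable_one_div_nat_pow.2 one_lt_two
  refine ⟨Real.exp (30 * ∑' m : ℕ, 1 / (m : ℝ) ^ 2), Real.exp_pos _, fun n D hn => ?_⟩
  set S := n.primeFactors.filter fun p => p ^ 2 ∣ n with hS
  have h0 : ∀ e : ℕ, 0 ≤ hh n e / e := fun e => div_nonneg (hh_nonneg _ _) (Nat.cast_nonneg _)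
  have h1 := (EulerProduct.summable_and_hasSum_factoredNumbers_prod_filter_prime_tsum
    (f := fun e : ℕ => hh n e / e) (by simp [(hh_mult n).map_one])
    (fun {a b} h => by rw [(hh_mult n).map_mul_of_coprime h]; push_cast; ring)
    (fun {p} hp => by
      simpa only [Real.norm_of_nonneg (h0 _)] using (local_factor hp n).1) S).2
  classical
  have h2 := sum_le_hasSum ((Ioc 0 D).subtype (· ∈ Nat.factoredNumbers S)) (fun _ _ => h0 _) h1
  rw [sum_subtype_eq_sum_filter (f := fun e : ℕ => hh n e / e), sum_filter_of_ne] at h2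
  · refine h2.trans ?_
    have hP : ∀ p ∈ S, p.Prime := fun p hp => Nat.prime_of_mem_primeFactors (mem_filter.1 hp).1
    rw [filter_true_of_mem hP]
    refine (prod_le_prod (fun p _ => tsum_nonneg fun k => h0 _)
      fun p hp => (local_factor (hP p hp) n).2).trans ?_
    rw [prod_mul_distrib, mul_comm, ← Real.exp_sum, ← mul_sum]
    gcongr
    exact hz.sum_le_tsum _ fun _ _ => by positivity
  · intro e _ he
    rw [hh_apply] at he
    split_ifs at he with h
    · refine Nat.mem_factoredNumbers'.2 fun p hp hd => mem_filter.2 ⟨?_, (h.2 p hp hd).2⟩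
      exact Nat.mem_primeFactors.2 ⟨hp, (dvd_pow_self p two_ne_zero).trans (h.2 p hp hd).2, hn⟩
    · simp at he

end Pool.Agent.Lib.MP_9c5702_nt
end
end
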